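import Pool.Agent.W601.RP.Stm2

set_option autoImplicit false
open scoped Classical
open Filter Topology

namespace Pool.Agent.W164.RP

open Pool.Agent.W601.RP

noncomputable section

theorem castn (a n : ℕ) : ((((a : ℝ) / (n : ℝ)) : ℝ) : TT) = a • ((((1 : ℝ) / (n : ℝ)) : ℝ) : TT) := by
  rw [← AddCircle.coe_nsmul]
  congr 1
  rw [nsmul_eq_mul]
  ring

theorem N_ge (t : ℕ) : t + 1 ≤ N t := by
  unfold N
  have := Nat.self_le_factorial (t + 1)
  omega

theorem red_exists (n : ℕ) (hn : 1 ≤ n) (a : ℕ) (ha : a < n) :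
    ∃ m : ℤ, ((((a : ℝ) / (n : ℝ)) : ℝ) : TT) = m • ((((1 : ℝ) / (n : ℝ)) : ℝ) : TT) ∧
      -(n : ℤ) < 2 * m ∧ 2 * m ≤ n := by
  by_cases h : 2 * a ≤ n
  · refine ⟨a, ?_, by omega, by omega⟩
    rw [castn, natCast_zsmul]
  · refine ⟨(a : ℤ) - n, ?_, by omega, by omega⟩
    rw [castn, sub_zsmul, natCast_zsmul, natCast_zsmul]
    have h1 : n • ((((1 : ℝ) / (n : ℝ)) : ℝ) : TT) = 0 := by
      rw [← AddCircle.coe_nsmul, nsmul_eq_mul]
      have : (n : ℝ) * (1 / n) = 1 := by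
        have : (n : ℝ) ≠ 0 := by positivity
        field_simp
      rw [this]
      exact AddCircle.coe_period 1
    rw [h1]
    simp

theorem ba : S_UNIT → S_NULL → S_CIR → S_SGN → S_BA := by
  intro hU hNull hC hS A hA χ ε hε hχ
  obtain ⟨hC1, -, hC3, -, hC5⟩ := hC
  obtain ⟨t0, ht0⟩ := hU A hA
  -- elements vanishing on `A`
  have hz : ∀ h : ↥H, (∀ t ∈ A, (h : ℕ → TT) t = 0) → χ h = 0 := by
    intro h hh
    apply hC1
    intro m
    rw [← map_nsmul]
    apply hχ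
    intro t ht
    have h1 : ((m • h : ↥H) : ℕ → TT) t = 0 := by
      rw [AddSubgroup.coe_nsmul, Pi.smul_apply, hh t ht, smul_zero]
    rw [h1, norm_zero]
    exact hε
  -- unit vectors
  have hex : ∀ t : ℕ, ∃ h : ↥H, t ∈ A → t0 ≤ t →
      ((h : ℕ → TT) t = ((((1 : ℝ) / (N t : ℝ)) : ℝ) : TT) ∧
        ∀ u ∈ A, u ≠ t → (h : ℕ → TT) u = 0) := by
    intro t
    by_cases ht : t ∈ A ∧ t0 ≤ t
    · obtain ⟨h, hh, h1, h2⟩ := ht0 t ht.1 ht.2 1
      refine ⟨⟨h, hh⟩, fun _ _ => ⟨?_, h2⟩⟩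
      rw [Nat.cast_one] at h1
      exact h1
    · exact ⟨0, fun h1 h2 => absurd ⟨h1, h2⟩ ht⟩
  choose e he using hex
  have hN1 : ∀ t, 1 ≤ N t := fun t => by have := N_ge t; omega
  have hy0 : ∀ t ∈ A, t0 ≤ t → N t • χ (e t) = 0 := by
    intro t ht ht'
    rw [← map_nsmul]
    apply hz
    intro u hu
    rw [AddSubgroup.coe_nsmul, Pi.smul_apply]
    by_cases hut : u = t
    · rw [hut]
      exact hNull.2 _ (e t).2 t
    · rw [(he t ht ht').2 u hu hut, smul_zero]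
  have hm : ∀ t : ℕ, ∃ m : ℤ, t ∈ A → t0 ≤ t →
      (χ (e t) = m • ((((1 : ℝ) / (N t : ℝ)) : ℝ) : TT) ∧ -(N t : ℤ) < 2 * m ∧ 2 * m ≤ N t) := by
    intro t
    by_cases ht : t ∈ A ∧ t0 ≤ t
    · obtain ⟨a, ha, h1⟩ := hC5 (N t) (χ (e t)) (hN1 t) (hy0 t ht.1 ht.2)
      obtain ⟨m, h2, h3, h4⟩ := red_exists (N t) (hN1 t) a ha
      exact ⟨m, fun _ _ => ⟨by rw [h1, h2], h3, h4⟩⟩
    · exact ⟨0, fun h1 h2 => absurd ⟨h1, h2⟩ ht⟩
  choose m hm using hm
  -- finiteness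
  have hfin : {t | t ∈ A ∧ t0 ≤ t ∧ χ (e t) ≠ 0}.Finite := by
    by_contra hinf
    obtain ⟨δ, hδ0, hδ1, hδ2⟩ : ∃ δ : ℝ, 0 < δ ∧ δ ≤ 1 / 2 ∧ δ < ε :=
      ⟨min (ε / 2) (1 / 2), by positivity, min_le_right _ _,
        lt_of_le_of_lt (min_le_left _ _) (by linarith)⟩
    obtain ⟨T, hT⟩ := exists_nat_ge (8 / δ)
    obtain ⟨K, hK⟩ := exists_nat_ge (2 / δ)
    have hinf2 : ({t | t ∈ A ∧ t0 ≤ t ∧ χ (e t) ≠ 0} \ {t | t < T}).Infinite :=
      Set.Infinite.sdiff hinf (Set.finite_lt_nat T)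
    obtain ⟨s, hs, hsc⟩ := hinf2.exists_subset_card_eq K
    have hsm : ∀ t ∈ s, t ∈ A ∧ t0 ≤ t ∧ χ (e t) ≠ 0 ∧ T ≤ t := by
      intro t ht
      have h1 := hs ht
      exact ⟨h1.1.1, h1.1.2.1, h1.1.2.2, not_lt.1 h1.2⟩
    have hae : ∀ t : ℕ, ∃ a : ℕ, t ∈ s → ‖((((a : ℝ) / (N t : ℝ)) : ℝ) : TT)‖ ≤ δ ∧
        δ / 2 ≤ ‖m t • ((((a : ℝ) / (N t : ℝ)) : ℝ) : TT)‖ := by
      intro t
      by_cases ht : t ∈ s
      · obtain ⟨h1, h2, h3, h4⟩ := hsm t ht
        obtain ⟨h5, h6, h7⟩ := hm t h1 h2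
        obtain ⟨a, -, h8, h9⟩ := hC3 (N t) (m t) δ hδ0 hδ1 (by
          have h10 : (T : ℝ) ≤ N t := by
            have := N_ge t
            exact_mod_cast (by omega : T ≤ N t)
          rw [div_le_iff₀ hδ0] at hT
          nlinarith) (by
          intro h0
          rw [h0, zero_smul] at h5
          exact h3 h5) h6 h7
        exact ⟨a, fun _ => ⟨h8, h9⟩⟩
      · exact ⟨0, fun h => absurd h ht⟩
    choose a ha using hae
    obtain ⟨σ, hσ, hσ2⟩ := (hS s (fun t => m t • ((((a t : ℝ) / (N t : ℝ)) : ℝ) : TT)) δ hδ0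
      (fun t ht => (ha t ht).2) (by
        rw [hsc]
        rw [div_le_iff₀ hδ0] at hK
        linarith)).2
    have h1 : χ (∑ i ∈ s, σ i • (a i • e i)) =
        ∑ i ∈ s, σ i • (m i • ((((a i : ℝ) / (N i : ℝ)) : ℝ) : TT)) := by
      rw [map_sum]
      refine Finset.sum_congr rfl fun i hi => ?_
      obtain ⟨h1, h2, h3, h4⟩ := hsm i hi
      rw [map_zsmul, map_nsmul, (hm i h1 h2).1, castn, smul_comm (a i) (m i)]
    have h2 : ‖χ (∑ i ∈ s, σ i • (a i • e i))‖ < 1 / 4 := by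
      apply hχ
      intro u hu
      have h3 : ((∑ i ∈ s, σ i • (a i • e i) : ↥H) : ℕ → TT) u =
          ∑ i ∈ s, σ i • (a i • ((e i : ↥H) : ℕ → TT) u) := by
        rw [AddSubgroup.val_finsetSum, Finset.sum_apply]
        rfl
      rw [h3]
      by_cases hus : u ∈ s
      · rw [Finset.sum_eq_single u]
        · obtain ⟨h4, h5, -, -⟩ := hsm u hus
          rw [(he u h4 h5).1, ← castn]
          have h6 := (ha u hus).1
          rcases hσ u with h | h | h
          · rw [h, zero_smul, norm_zero]; exact hε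
          · rw [h, one_smul]; linarith
          · rw [h, neg_smul, one_smul, norm_neg]; linarith
        · intro i hi hiu
          obtain ⟨h4, h5, -, -⟩ := hsm i hi
          rw [(he i h4 h5).2 u hu (Ne.symm hiu), smul_zero, smul_zero]
        · intro h; exact absurd hus h
      · rw [Finset.sum_eq_zero]
        · rw [norm_zero]; exact hε
        · intro i hi
          obtain ⟨h4, h5, -, -⟩ := hsm i hi
          rw [(he i h4 h5).2 u hu (fun h => hus (h ▸ hi)), smul_zero, smul_zero]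
    rw [h1] at h2
    linarith
  -- the coefficients
  refine ⟨t0, Finsupp.onFinset hfin.toFinset
    (fun t => if t ∈ A ∧ t0 ≤ t ∧ χ (e t) ≠ 0 then m t else 0) ?_, ?_, ht0, ?_⟩
  · intro t ht
    rw [Set.Finite.mem_toFinset]
    by_contra h
    exact ht (if_neg h)
  · intro t ht
    rw [Finsupp.mem_support_iff, Finsupp.onFinset_apply] at ht
    by_contra h
    exact ht (if_neg fun h' => h ⟨h'.1, h'.2.1⟩)
  · intro t ht ht' h hh
    obtain ⟨a, -, ha⟩ := hC5 (N t) ((h : ℕ → TT) t) (hN1 t) (hNull.2 _ h.2 t)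
    have h1 : χ (h - a • e t) = 0 := by
      apply hz
      intro u hu
      have h2 : ((h - a • e t : ↥H) : ℕ → TT) u =
          (h : ℕ → TT) u - a • ((e t : ↥H) : ℕ → TT) u := rfl
      rw [h2]
      by_cases hut : u = t
      · rw [hut, (he t ht ht').1, ← castn, ha, sub_self]
      · rw [(he t ht ht').2 u hu hut, hh u hu hut, smul_zero, sub_self]
    have h3 : χ h = m t • (h : ℕ → TT) t := by
      rw [map_sub, sub_eq_zero, map_nsmul] at h1
      rw [h1, (hm t ht ht').1, ha, castn, smul_comm]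
    unfold pr
    rw [Finsupp.sum, Finset.sum_eq_single t]
    · rw [Finsupp.onFinset_apply]
      by_cases h4 : χ (e t) ≠ 0
      · rw [if_pos ⟨ht, ht', h4⟩]
        exact h3
      · rw [if_neg fun h5 => h4 h5.2.2, zero_smul]
        push Not at h4
        rw [map_sub, sub_eq_zero, map_nsmul, h4, smul_zero] at h1
        exact h1
    · intro u hu hut
      rw [Finsupp.mem_support_iff, Finsupp.onFinset_apply] at hu
      have hA' : u ∈ A := by
        by_contra h5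
        exact hu (if_neg fun h6 => h5 h6.1)
      rw [hh u hA' hut, smul_zero]
    · intro h5
      rw [Finsupp.notMem_support_iff] at h5
      rw [h5, zero_smul]

end

end Pool.Agent.W164.RP
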